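import Pool.Agent.H65.HX.SStm

/-!
# Project HX, scheme side: part CEN
-/

set_option autoImplicit false
open Classical Finset

namespace Pool.Agent.H24.HX

open Pool.Agent.H39.HW (sm Av ln blk lab)
open Pool.Agent.H65.HX Pool.Agent.H65.HX.Sc

theorem t_CEN : S_CEN := by
  intro x hx a ha
  have θ0 := hx.t0
  have m0 := hx.m0
  have η0 := hx.n1
  have hth := hx.th
  have D0 : (0 : ℝ) < x.D := by exact_mod_cast hx.D1
  have hL : (8 * 10 ^ 6 : ℝ) ≤ x.L := by
    have h1 := hx.h1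
    have h2 : 8 * 10 ^ 6 ≤ x.L := by
      rw [hx.L1]
      nlinarith
    exact_mod_cast h2
  have hh : (1000 : ℝ) ≤ x.h := by exact_mod_cast hx.h1
  -- `μ` is tiny
  have hμ : 10 ^ 20 * x.μ ≤ x.η * x.θ := by
    have h1 := hx.u1
    have h2 : (1 : ℝ) ≤ (x.L : ℝ) ^ 4 := one_le_pow₀ (by linarith)
    have h3 : 10 ^ 20 * x.μ * 1 ≤ 10 ^ 20 * x.μ * (x.L : ℝ) ^ 4 :=
      mul_le_mul_of_nonneg_left h2 (by positivity)
    nlinarith
  -- `n0 μ`
  have hnμ : x.n0 * x.μ ≤ 1 / 10 ^ 12 := by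
    have h1 := hx.V1
    have h2 : (0 : ℝ) ≤ x.n0 * x.μ := by positivity
    have h3 : (1 : ℝ) ≤ (x.L : ℝ) * x.h := by nlinarith
    have h4 : 1 * (x.n0 * x.μ) ≤ ((x.L : ℝ) * x.h) * (x.n0 * x.μ) :=
      mul_le_mul_of_nonneg_right h3 h2
    have h5 : 10 ^ 12 * (x.L : ℝ) * x.h * (x.n0 * x.μ) =
      10 ^ 12 * (((x.L : ℝ) * x.h) * (x.n0 * x.μ)) := by ring
    rw [h5] at h1
    rw [le_div_iff₀ (by norm_num)]
    linarith
  have hη : x.η ≤ 1 / 10 ^ 18 := by
    have h1 := hx.V2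
    linarith
  have hμη : x.μ ≤ x.η := by
    have h1 : x.η * x.θ ≤ x.η * 1 := mul_le_mul_of_nonneg_left (by linarith) η0.le
    linarith
  have hM1 := abs_le.mp hx.m1
  have hj1 := hx.j1
  have hs2 := abs_le.mp hx.s2
  have hs3 := abs_le.mp hx.s3
  have hk2 := abs_le.mp hx.k2
  -- the rest
  have hN1 : (2 : ℝ) * x.Z0 + x.M * x.v ≤ x.D + 2 * x.p := by exact_mod_cast hx.N1
  have hN2 : (x.D : ℝ) + 2 * x.p < 2 * x.Z0 + x.M * x.v + x.M := by exact_mod_cast hx.N2
  have hMD : (x.M : ℝ) / x.D ≤ x.η * x.θ * x.μ / 10 ^ 9 := by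
    have h1 := hx.D2
    have h3 : (x.M : ℝ) ≤ x.B := by
      have : x.M ≤ x.B := by
        show x.M ≤ 2 * x.K + 2 * x.J + x.M
        omega
      exact_mod_cast this
    rw [div_le_iff₀ D0]
    linarith
  have hB : (x.B : ℝ) = 2 * x.K + 2 * x.J + x.M := by
    have : x.B = 2 * x.K + 2 * x.J + x.M := rfl
    rw [this]
    push_cast
    ring
  have hKh := hx.KhK
  have hb0 : x.b0 = x.K + x.J := rfl
  have hb1 : x.b1 = x.K + x.J + x.M := rfl
  have hBn : x.B = 2 * x.K + 2 * x.J + x.M := rfl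
  have hZ0 : (x.Z0 : ℝ) = x.Kh * x.w1 + (x.K + x.J - x.Kh) * x.w2 := by
    have : x.Z0 = x.Kh * x.w1 + (x.b0 - x.Kh) * x.w2 := rfl
    rw [this, hb0]
    push_cast [Nat.cast_sub (by omega : x.Kh ≤ x.K + x.J)]
    ring
  have hθ : x.θ = 1 - ((x.M : ℝ) + 2 * x.J - 1) * x.μ := rfl
  obtain ⟨hR1, hR2⟩ := Finset.mem_Icc.mp ha
  have hJ := hx.J1
  -- abstract quantities
  obtain ⟨V, hV⟩ : ∃ V : ℝ, V = (x.v : ℝ) / x.D := ⟨_, rfl⟩
  obtain ⟨W2, hW2⟩ : ∃ W2 : ℝ, W2 = (x.w2 : ℝ) / x.D := ⟨_, rfl⟩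
  obtain ⟨MD, hMD'⟩ : ∃ MD : ℝ, MD = (x.M : ℝ) / x.D := ⟨_, rfl⟩
  rw [← hV] at hs3
  rw [← hW2] at hs2
  rw [← hMD'] at hMD
  have MD0 : 0 ≤ MD := by rw [hMD']; positivity
  have ηθ : 0 < x.η * x.θ := mul_pos η0 θ0
  have θμ : 0 < x.θ * x.μ := mul_pos θ0 m0
  have hMDs : MD ≤ x.η * x.θ / 10 ^ 9 := by
    have h2 : x.μ ≤ 1 := by linarith
    have : x.η * x.θ * x.μ ≤ x.η * x.θ * 1 := mul_le_mul_of_nonneg_left h2 ηθ.le
    linarith
  by_cases cmid : x.b0 ≤ a ∧ a ≤ x.b1
  · -- the middle zone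
    obtain ⟨q1, q2⟩ := cmid
    have hst : (x.st a : ℝ) = x.Z0 + ((a : ℝ) - x.b0) * x.v := by
      by_cases he : a = x.b0
      · have h1 : x.st a = x.Kh * x.w1 + (x.b0 - x.Kh) * x.w2 := by
          unfold Prm.st
          rw [he, if_neg (by omega), if_pos (le_refl _)]
        rw [h1, he]
        have : x.Z0 = x.Kh * x.w1 + (x.b0 - x.Kh) * x.w2 := rfl
        rw [← this]
        ring
      · have h1 : x.st a = x.Z0 + (a - x.b0) * x.v := by
          unfold Prm.st
          rw [if_neg (by omega), if_neg (by omega), if_pos q2]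
        rw [h1]
        push_cast [Nat.cast_sub q1]
        ring
    -- `r` is half of the rest
    obtain ⟨r, hr⟩ : ∃ r : ℝ, r = ((x.D : ℝ) + 2 * x.p - 2 * x.Z0 - x.M * x.v) / 2 := ⟨_, rfl⟩
    obtain ⟨s, hs⟩ : ∃ s : ℝ, s = (a : ℝ) - x.B / 2 := ⟨_, rfl⟩
    have hb0r : (x.b0 : ℝ) = x.K + x.J := by
      rw [hb0]
      push_cast
      ring
    have hst2 : (x.st a : ℝ) - x.p = x.D / 2 - r + s * x.v := by
      rw [hst, hr, hs, hb0r, hB]
      ring
    have hst3 : ((x.st a : ℝ) - x.p) / x.D = 1 / 2 - r / x.D + s * V := by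
      rw [hst2, hV]
      field_simp
    have hr0 : 0 ≤ r / x.D := by
      apply div_nonneg _ D0.le
      rw [hr]
      linarith
    have hr1 : r / x.D ≤ MD / 2 := by
      rw [hMD', div_div, div_le_div_iff₀ D0 (by positivity)]
      have h5 : r ≤ x.M / 2 := by
        rw [hr]
        linarith
      have h6 := mul_le_mul_of_nonneg_right h5 D0.le
      linarith
    have haK : ((a : ℝ) - x.K) * x.μ = (1 - x.θ + x.μ) / 2 + s * x.μ := by
      rw [hs, hB, hθ]
      ring
    have hmain : ((x.st a : ℝ) - x.p) / x.D - ((a : ℝ) - x.K) * x.μ =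
        x.θ / 2 - x.μ / 2 + s * (V - x.μ) - r / x.D := by
      rw [hst3, haK]
      ring
    -- size of `s`
    have hsM : |s| ≤ x.M / 2 := by
      rw [hs, hB]
      have e1 : (x.K + x.J : ℝ) ≤ a := by
        have : x.K + x.J ≤ a := q1
        exact_mod_cast this
      have e2 : (a : ℝ) ≤ x.K + x.J + x.M := by
        have : a ≤ x.K + x.J + x.M := q2
        exact_mod_cast this
      rw [abs_le]
      constructor <;> linarith
    have hVe : |V - x.μ - 3 / 5 * x.θ * x.μ| ≤ x.η * x.θ * x.μ := abs_le.mpr hs3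
    constructor
    · rw [hmain, ← hs]
      have e : x.θ / 2 - x.μ / 2 + s * (V - x.μ) - r / x.D - x.θ * (1 / 2 + 3 / 5 * (s * x.μ)) =
          s * (V - x.μ - 3 / 5 * x.θ * x.μ) + (- x.μ / 2 - r / x.D) := by ring
      rw [e]
      have a1 : |s * (V - x.μ - 3 / 5 * x.θ * x.μ)| ≤ x.M / 2 * (x.η * x.θ * x.μ) := by
        rw [abs_mul]
        exact mul_le_mul hsM hVe (abs_nonneg _) (by positivity)
      have a2 : (x.M : ℝ) / 2 * (x.η * x.θ * x.μ) = x.η * x.θ * (x.M * x.μ / 2) := by ring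
      have a3 : x.η * x.θ * (x.M * x.μ / 2) ≤ x.η * x.θ * 1 := by
        apply mul_le_mul_of_nonneg_left _ ηθ.le
        linarith [hM1.2]
      rw [a2] at a1
      have b1 := abs_le.mp a1
      rw [abs_le]
      constructor <;> linarith [b1.1, b1.2]
    · intro hr0'
      obtain ⟨-, g1, g2⟩ := Finset.mem_filter.mp hr0'
      have hsn : |s| ≤ x.n0 := by
        rw [hs]
        have g1' : (x.B : ℝ) ≤ 2 * a + 2 * x.n0 := by exact_mod_cast g1
        have g2' : (2 : ℝ) * a ≤ x.B + 2 * x.n0 := by exact_mod_cast g2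
        rw [abs_le]
        constructor <;> linarith
      rw [hmain]
      have e : x.θ / 2 - x.μ / 2 + s * (V - x.μ) - r / x.D - x.θ / 2 =
          s * (V - x.μ) + (- x.μ / 2 - r / x.D) := by ring
      rw [e]
      have hn1 : (1 : ℝ) ≤ x.n0 := by exact_mod_cast hx.n2
      have hVa : |V - x.μ| ≤ 61 / 100 * (x.θ * x.μ) := by
        have : x.η * x.θ * x.μ ≤ 1 / 100 * (x.θ * x.μ) := by
          rw [mul_assoc]
          apply mul_le_mul_of_nonneg_right _ θμ.le
          linarith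
        rw [abs_le]
        constructor <;> linarith [hs3.1, hs3.2]
      have a1 : |s * (V - x.μ)| ≤ x.n0 * (61 / 100 * (x.θ * x.μ)) := by
        rw [abs_mul]
        exact mul_le_mul hsn hVa (abs_nonneg _) (by positivity)
      have b1 := abs_le.mp a1
      have c1 : 10 ^ 6 * x.η * x.θ ≤ x.n0 * x.μ * x.θ :=
        mul_le_mul_of_nonneg_right hx.V2 θ0.le
      have c2 : (x.n0 : ℝ) * (61 / 100 * (x.θ * x.μ)) = 61 / 100 * (x.n0 * x.μ * x.θ) := by ring
      rw [c2] at b1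
      rw [abs_le]
      constructor <;> linarith [b1.1, b1.2]
  · have hnot : a ∈ x.R0 → False := by
      intro h
      obtain ⟨-, g1, g2⟩ := Finset.mem_filter.mp h
      apply cmid
      have g1' : (x.B : ℝ) ≤ 2 * a + 2 * x.n0 := by exact_mod_cast g1
      have g2' : (2 : ℝ) * a ≤ x.B + 2 * x.n0 := by exact_mod_cast g2
      have hMn : 2 * (x.n0 : ℝ) ≤ x.M := by
        by_contra hc
        push Not at hc
        have : (x.M : ℝ) * x.μ < 2 * x.n0 * x.μ := mul_lt_mul_of_pos_right hc m0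
        have h7 : 2 * (x.n0 : ℝ) * x.μ = 2 * (x.n0 * x.μ) := by ring
        rw [h7] at this
        linarith [hM1.1]
      rw [hB] at g1' g2'
      have f1 : (x.K + x.J : ℝ) ≤ a := by linarith
      have f2 : (a : ℝ) ≤ x.K + x.J + x.M := by linarith
      constructor
      · show x.K + x.J ≤ a
        exact_mod_cast f1
      · show a ≤ x.K + x.J + x.M
        exact_mod_cast f2
    refine ⟨?_, fun h => (hnot h).elim⟩
    -- the block `U` of `K` labels at the end
    obtain ⟨U, hU⟩ : ∃ U : ℝ, U = ((x.Kh : ℝ) * x.w1 + (x.K - x.Kh) * x.w2 - x.p) / x.D := ⟨_, rfl⟩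
    rw [← hU] at hk2
    by_cases cb : a < x.b0
    · have hst : (x.st a : ℝ) = x.Kh * x.w1 + ((a : ℝ) - x.Kh) * x.w2 := by
        have h1 : x.st a = x.Kh * x.w1 + (a - x.Kh) * x.w2 := by
          unfold Prm.st
          rw [if_neg (by omega), if_pos (by omega)]
        rw [h1]
        push_cast [Nat.cast_sub (by omega : x.Kh ≤ a)]
        ring
      obtain ⟨s, hs⟩ : ∃ s : ℝ, s = (a : ℝ) - x.K := ⟨_, rfl⟩
      have hst3 : ((x.st a : ℝ) - x.p) / x.D = U + s * W2 := by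
        rw [hst, hU, hW2, hs]
        field_simp
        ring
      have hs0 : 0 ≤ s := by
        rw [hs]
        have : (x.K : ℝ) ≤ a := by
          have : x.K ≤ a := by omega
          exact_mod_cast this
        linarith
      have hs1 : s ≤ x.J := by
        rw [hs]
        have : (a : ℝ) ≤ x.K + x.J := by
          have : a ≤ x.K + x.J := by omega
          exact_mod_cast this
        linarith
      have hsμ : s * x.μ ≤ x.η := (mul_le_mul_of_nonneg_right hs1 m0.le).trans hj1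
      have hsμ0 : 0 ≤ s * x.μ := mul_nonneg hs0 m0.le
      have haB : ((a : ℝ) - x.B / 2) * x.μ = s * x.μ - (1 - x.θ + x.μ) / 2 := by
        rw [hs, hB, hθ]
        ring
      rw [hst3, haB, ← hs]
      have e : U + s * W2 - s * x.μ - x.θ * (1 / 2 + 3 / 5 * (s * x.μ - (1 - x.θ + x.μ) / 2)) =
          (U - 1 / 5 * x.θ) + s * (W2 - x.μ - 3 / 20 * x.θ * x.μ) + (3 / 20 - 3 / 5) * x.θ * (s * x.μ)
            + 3 / 10 * x.θ * (x.μ - x.θ) := by ring
      rw [e]
      have a1 : |s * (W2 - x.μ - 3 / 20 * x.θ * x.μ)| ≤ x.η * x.θ * (s * x.μ) := by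
        rw [abs_mul, abs_of_nonneg hs0]
        calc s * |W2 - x.μ - 3 / 20 * x.θ * x.μ| ≤ s * (x.η * x.θ * x.μ) :=
              mul_le_mul_of_nonneg_left (abs_le.mpr hs2) hs0
          _ = x.η * x.θ * (s * x.μ) := by ring
      have a2 : x.η * x.θ * (s * x.μ) ≤ x.η * x.θ * x.η := mul_le_mul_of_nonneg_left hsμ ηθ.le
      have a3 : x.η * x.θ * x.η ≤ x.η * x.θ * (1 / 100) :=
        mul_le_mul_of_nonneg_left (by linarith) ηθ.le
      have a4 : x.θ * (s * x.μ) ≤ x.θ * x.η := mul_le_mul_of_nonneg_left hsμ θ0.le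
      have a5 : 0 ≤ x.θ * (s * x.μ) := mul_nonneg θ0.le hsμ0
      have a6 : x.θ * x.θ ≤ x.θ * x.η := mul_le_mul_of_nonneg_left hth θ0.le
      have a7 : 0 ≤ x.θ * x.θ := by positivity
      have a8 : x.θ * x.μ ≤ x.θ * x.η := by
        exact mul_le_mul_of_nonneg_left hμη θ0.le
      have b1 := abs_le.mp a1
      rw [abs_le]
      constructor
      · linarith [b1.1, hk2.1]
      · linarith [b1.2, hk2.2]
    · have ca : x.b1 < a := by
        by_contra h
        exact cmid ⟨by omega, by omega⟩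
      have hst : (x.st a : ℝ) = x.Z0 + x.M * x.v + ((a : ℝ) - x.b1) * x.w2 := by
        have h1 : x.st a = x.Z0 + x.M * x.v + (a - x.b1) * x.w2 := by
          unfold Prm.st
          rw [if_neg (by omega), if_neg (by omega), if_neg (by omega), if_pos (by omega)]
        rw [h1]
        push_cast [Nat.cast_sub ca.le]
        ring
      obtain ⟨r, hr⟩ : ∃ r : ℝ, r = (x.D : ℝ) + 2 * x.p - 2 * x.Z0 - x.M * x.v := ⟨_, rfl⟩
      have hr0 : 0 ≤ r / x.D := by
        apply div_nonneg _ D0.le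
        rw [hr]
        linarith
      have hr1 : r / x.D ≤ MD := by
        rw [hMD', div_le_div_iff₀ D0 D0]
        have h5 : r ≤ x.M := by
          rw [hr]
          linarith
        exact mul_le_mul_of_nonneg_right h5 D0.le
      have hb1r : (x.b1 : ℝ) = x.K + x.J + x.M := by
        rw [hb1]
        push_cast
        ring
      obtain ⟨s, hs⟩ : ∃ s : ℝ, s = (a : ℝ) - x.b1 - x.J := ⟨_, rfl⟩
      have hst2 : (x.st a : ℝ) - x.p = x.D - r -
          ((x.Kh : ℝ) * x.w1 + (x.K - x.Kh) * x.w2 - x.p) + s * x.w2 := by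
        rw [hst, hr, hs, hZ0]
        ring
      have hst3 : ((x.st a : ℝ) - x.p) / x.D = 1 - r / x.D - U + s * W2 := by
        rw [hst2, hU, hW2]
        field_simp
      have hs0 : s ≤ 0 := by
        rw [hs]
        have : (a : ℝ) ≤ x.b1 + x.J := by
          have : a ≤ x.b1 + x.J := by omega
          exact_mod_cast this
        linarith
      have hs1 : - (x.J : ℝ) ≤ s := by
        rw [hs]
        have : (x.b1 : ℝ) ≤ a := by exact_mod_cast ca.le
        linarith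
      have hsμ : - x.η ≤ s * x.μ := by
        have := mul_le_mul_of_nonneg_right hs1 m0.le
        linarith
      have hsμ0 : s * x.μ ≤ 0 := mul_nonpos_of_nonpos_of_nonneg hs0 m0.le
      have haK : ((a : ℝ) - x.K) * x.μ = (1 - x.θ + x.μ) + s * x.μ := by
        rw [hs, hb1r, hθ]
        ring
      have haB : ((a : ℝ) - x.B / 2) * x.μ = s * x.μ + (1 - x.θ + x.μ) / 2 := by
        rw [hs, hb1r, hB, hθ]
        ring
      rw [hst3, haK, haB]
      have e : 1 - r / x.D - U + s * W2 - (1 - x.θ + x.μ + s * x.μ) -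
          x.θ * (1 / 2 + 3 / 5 * (s * x.μ + (1 - x.θ + x.μ) / 2)) =
          - (U - 1 / 5 * x.θ) + s * (W2 - x.μ - 3 / 20 * x.θ * x.μ)
            + (3 / 20 - 3 / 5) * x.θ * (s * x.μ)
            - 3 / 10 * x.θ * (x.μ - x.θ) - x.μ - r / x.D := by ring
      rw [e]
      have a1 : |s * (W2 - x.μ - 3 / 20 * x.θ * x.μ)| ≤ x.η * x.θ * (- (s * x.μ)) := by
        rw [abs_mul, abs_of_nonpos hs0]
        calc - s * |W2 - x.μ - 3 / 20 * x.θ * x.μ| ≤ - s * (x.η * x.θ * x.μ) :=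
              mul_le_mul_of_nonneg_left (abs_le.mpr hs2) (by linarith)
          _ = x.η * x.θ * (- (s * x.μ)) := by ring
      have a2 : x.η * x.θ * (- (s * x.μ)) ≤ x.η * x.θ * x.η :=
        mul_le_mul_of_nonneg_left (by linarith) ηθ.le
      have a3 : x.η * x.θ * x.η ≤ x.η * x.θ * (1 / 100) :=
        mul_le_mul_of_nonneg_left (by linarith) ηθ.le
      have a4 : x.θ * (- (s * x.μ)) ≤ x.θ * x.η := mul_le_mul_of_nonneg_left (by linarith) θ0.le
      have a5 : 0 ≤ x.θ * (- (s * x.μ)) := mul_nonneg θ0.le (by linarith)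
      have a6 : x.θ * x.θ ≤ x.θ * x.η := mul_le_mul_of_nonneg_left hth θ0.le
      have a7 : 0 ≤ x.θ * x.θ := by positivity
      have a8 : x.θ * x.μ ≤ x.θ * x.η := by
        exact mul_le_mul_of_nonneg_left hμη θ0.le
      have b1 := abs_le.mp a1
      rw [abs_le]
      constructor
      · linarith [b1.1, hk2.2]
      · linarith [b1.2, hk2.1]

end Pool.Agent.H24.HX
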