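import Pool.Agent.H65.HX.SStm

/-!
# Project HX, scheme side: part ROW
-/

set_option autoImplicit false
open Classical Finset

namespace Pool.Agent.H24.HX

open Pool.Agent.H39.HW (sm Av ln blk lab)
open Pool.Agent.H65.HX Pool.Agent.H65.HX.Sc

theorem L_pos {x : Prm} (hx : Par x) : (8 * 10 ^ 6 : ℝ) ≤ x.L := by
  have h1 := hx.h1
  have h2 : 8 * 10 ^ 6 ≤ x.L := by
    rw [hx.L1]
    nlinarith
  exact_mod_cast h2

/-- `gA` is a fraction -/
theorem gA_mem {x : Prm} {l : ℝ} (a β : ℕ) (l0 : a ∉ x.R0 → 0 ≤ l) (l1 : a ∉ x.R0 → l ≤ 1) :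
    0 ≤ x.gA l a β ∧ x.gA l a β ≤ 1 := by
  unfold Prm.gA
  by_cases h : a ∈ x.R0
  · rw [if_pos h]
    split_ifs <;> constructor <;> linarith
  · have a0 := l0 h
    have a1 := l1 h
    rw [if_neg h]
    split_ifs <;> constructor <;> linarith

/-- `gA` away from the adjacent blocks, in the middle -/
theorem gA_far {x : Prm} {l : ℝ} {a β : ℕ} (hr : a ∉ x.R0) (hm : β ∈ x.mid)
    (ha : ¬ x.adj a β) : 1 / 4 ≤ x.gA l a β ∧ x.gA l a β ≤ 3 / 4 := by
  obtain ⟨m1, m2⟩ := Finset.mem_Ico.mp hm
  unfold Prm.gA
  rw [if_neg hr, if_neg (by omega), if_neg (by omega), if_neg ha]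
  split_ifs <;> constructor <;> linarith

theorem t_ROW (h1 : S_LAM) (h2 : S_CLD) (h3 : S_TTB) (h4 : S_ZON) (h5 : S_ALL) (h6 : S_MMD) :
    S_ROW := by
  intro x hx a ha τ
  have hlam := h1 x hx a ha
  obtain ⟨c1, c2, c3, c4, c5, c6, c7⟩ := h2 x hx a ha
  have T := h3 x hx a ha
  obtain ⟨-, -, -, -, -, hz⟩ := h4 x hx
  have hz0 := (hz a ha).2.2
  have hal := h5 x hx
  obtain ⟨-, m2⟩ := h6 x hx
  have θ0 := hx.t0
  have m0 := hx.m0
  have hL := L_pos hx
  have hLi : 1 / (100 * (x.L : ℝ)) ≤ 1 / 100 := by
    apply one_div_le_one_div_of_le (by norm_num)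
    linarith
  have Tlow : ∀ τ, 49 / 100 * x.θ ≤ x.Tt τ a := by
    intro τ
    have := (T τ).1
    have : 49 / 100 * x.θ ≤ (1 / 2 - 1 / (100 * x.L)) * x.θ :=
      mul_le_mul_of_nonneg_right (by linarith) θ0.le
    linarith
  have T0 : ∀ τ, 0 < x.Tt τ a := by
    intro τ
    have := Tlow τ
    have : 0 < 49 / 100 * x.θ := by positivity
    linarith
  have dem0 : ∀ β ∈ x.cls a, 0 ≤ x.dem a β := by
    intro β hβ
    have := (c6 β hβ).1
    have h : 0 ≤ 7 / 50 * x.θ * x.μ := by positivity
    linarith
  have fr0 : ∀ τ β, 0 ≤ x.fr τ a β ∧ x.fr τ a β ≤ 1 := by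
    intro τ β
    have := gA_mem (x := x) (l := x.lam a) a β (fun h => (hlam h).1) (fun h => (hlam h).2.1)
    unfold Prm.fr
    split_ifs
    · exact this
    · constructor <;> linarith [this.1, this.2]
  have hfr : ∀ β, x.fr true a β + x.fr false a β = 1 := by
    intro β
    unfold Prm.fr
    simp
  refine ⟨?_, ?_, ?_, ?_, ?_, ?_⟩
  · intro β
    unfold Prm.u
    split_ifs with h
    · exact div_nonneg (mul_nonneg (fr0 τ β).1 (dem0 β h)) (T0 τ).le
    · exact le_refl _
  · intro β
    unfold Prm.u
    split_ifs with h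
    · have e1 := (c6 β h).2
      have e2 := (fr0 τ β)
      have e3 := dem0 β h
      rw [div_le_div_iff₀ (T0 τ) θ0]
      have a1 : x.fr τ a β * x.dem a β ≤ 1 * (2 * x.μ) :=
        mul_le_mul e2.2 e1 e3 zero_le_one
      have a3 : x.fr τ a β * x.dem a β * x.θ ≤ 1 * (2 * x.μ) * x.θ :=
        mul_le_mul_of_nonneg_right a1 θ0.le
      have a4 : 5 * x.μ * (49 / 100 * x.θ) ≤ 5 * x.μ * x.Tt τ a :=
        mul_le_mul_of_nonneg_left (Tlow τ) (by positivity)
      have a5 : 0 ≤ x.μ * x.θ := by positivity
      nlinarith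
    · positivity
  · have e1 : ∀ β ∈ range x.B, x.u τ a β =
        if β ∈ x.cls a then x.fr τ a β * x.dem a β / x.Tt τ a else 0 := fun β _ => rfl
    rw [Finset.sum_congr rfl e1, ← Finset.sum_filter]
    have e2 : (range x.B).filter (fun β => β ∈ x.cls a) = x.cls a := by
      ext β
      rw [Finset.mem_filter, Finset.mem_range]
      exact ⟨fun h => h.2, fun h => ⟨((c1 β).mp h).1, h⟩⟩
    rw [e2, ← Finset.sum_div]
    have e3 : ∑ β ∈ x.cls a, x.fr τ a β * x.dem a β = x.Tt τ a := rfl
    rw [e3, div_self (T0 τ).ne']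
  · intro β hu
    have hcl : β ∈ x.cls a := by
      by_contra h
      apply hu
      unfold Prm.u
      rw [if_neg h]
    have hf : x.fr τ a β ≠ 0 := by
      intro h
      apply hu
      unfold Prm.u
      rw [if_pos hcl, h]
      ring
    have hβB := ((c1 β).mp hcl).1
    have hab : a ≠ β := by
      rintro rfl
      exact c3 hcl
    refine ⟨hcl, ?_, ?_⟩
    · cases τ
      · apply (hal β hβB).2
        by_cases hr : a ∈ x.R0
        · have h7 := (hz0 hr).2
          by_contra hb
          apply hf
          unfold Prm.fr Prm.gA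
          have : a < β := by omega
          simp [hr, this]
        · by_contra hb
          apply hf
          unfold Prm.fr Prm.gA
          have h8 : ¬ β < x.b0 := by
            have : x.b1 = x.b0 + x.M := rfl
            omega
          have h9 : x.b1 ≤ β := by omega
          simp [hr, h8, h9]
      · apply (hal β hβB).1
        by_cases hr : a ∈ x.R0
        · have h7 := (hz0 hr).1
          by_contra hb
          apply hf
          unfold Prm.fr Prm.gA
          have : ¬ a < β := by omega
          simp [hr, this]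
        · by_contra hb
          apply hf
          unfold Prm.fr Prm.gA
          have h8 : β < x.b0 := by omega
          simp [hr, h8]
    · intro hr
      by_contra hne
      apply hf
      unfold Prm.fr Prm.gA
      cases τ
      · have : a < β := by
          by_contra h
          apply hne
          simp [h]
        simp [hr, this]
      · have : ¬ a < β := by
          intro h
          apply hne
          simp [h]
        simp [hr, this]
  · intro β hcl
    unfold TT
    by_cases hr : a ∈ x.R0
    · rw [if_pos hr]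
      by_cases hab : a < β
      · have e1 : x.fr true a β = 1 := by
          unfold Prm.fr Prm.gA
          simp [hr, hab]
        have e2 : x.fr false a β = 0 := by
          unfold Prm.fr Prm.gA
          simp [hr, hab]
        unfold Prm.u
        rw [if_pos hcl, if_pos hcl, e1, e2]
        simp [hab]
      · have e1 : x.fr true a β = 0 := by
          unfold Prm.fr Prm.gA
          simp [hr, hab]
        have e2 : x.fr false a β = 1 := by
          unfold Prm.fr Prm.gA
          simp [hr, hab]
        unfold Prm.u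
        rw [if_pos hcl, if_pos hcl, e1, e2]
        simp [hab]
    · rw [if_neg hr]
      have t1 := ((T true).2.2.1 hr).1
      have t2 := ((T false).2.2.1 hr).1
      unfold Prm.u
      rw [if_pos hcl, if_pos hcl, t1, t2, ← add_div, ← add_mul, hfr, one_mul]
  · intro β hβ hτ
    obtain ⟨hcl, hmm, -, hmid⟩ := Finset.mem_filter.mp hβ
    unfold TT
    by_cases hr : a ∈ x.R0
    · rw [if_pos hr]
      have hτ' := hτ hr
      have e1 : x.fr τ a β = 1 := by
        rw [hτ']
        unfold Prm.fr Prm.gA
        by_cases hab : a < β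
        · simp [hr, hab]
        · simp [hr, hab]
      unfold Prm.u
      rw [if_pos hcl, e1, ← hτ']
      have : 0 ≤ x.dem a β / x.Tt τ a := div_nonneg (dem0 β hcl) (T0 τ).le
      rw [one_mul]
      linarith
    · rw [if_neg hr]
      have hna : ¬ x.adj a β := (((m2 a ha).1 β).mp hmm).2.1
      have hg := gA_far (l := x.lam a) hr (hmid hr) hna
      have hf : 1 / 4 ≤ x.fr τ a β := by
        unfold Prm.fr
        split_ifs
        · exact hg.1
        · linarith [hg.2]
      have t1 := ((T τ).2.2.1 hr).1
      unfold Prm.u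
      rw [if_pos hcl, t1]
      have h7 : 0 < x.Dt a / 2 := by
        rw [← t1]
        exact T0 τ
      have e : x.fr τ a β * x.dem a β / (x.Dt a / 2) =
        x.fr τ a β * (x.dem a β / (x.Dt a / 2)) := by ring
      rw [e]
      exact mul_le_mul_of_nonneg_right hf (div_nonneg (dem0 β hcl) h7.le)

end Pool.Agent.H24.HX
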